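import Mathlib

/-!
# The sequence generated by `2 k + 2` and `3 k + 3` is not always injective

`s_a (1) = a`, `s_a (2 k) = 2 s_a (k) + 2`, `s_a (2 k + 1) = 3 s_a (k) + 3` for `k ≥ 1`.
The map `s_a` has a repeated value for `a = -4` and for `a = 3`.
-/

set_option autoImplicit false

namespace Pool.Agent.Results.MP_6850eb_nt.NotInjective

/-- The map `s_a` on the positive integers: `s_a (1) = a`, and for `n ≥ 2` the value is
`2 s_a (n / 2) + 2` if `n` is even and `3 s_a ((n - 1) / 2) + 3` if `n` is odd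
(the value at `0` plays no role). -/
def s (a : ℤ) : ℕ → ℤ
  | 0 => 0
  | 1 => a
  | n + 2 => if (n + 2) % 2 = 0 then 2 * s a ((n + 2) / 2) + 2 else 3 * s a ((n + 2) / 2) + 3
  decreasing_by all_goals omega

/-- the first equation of the recursion -/
lemma s_one (a : ℤ) : s a 1 = a := by simp [s]

/-- the second equation of the recursion -/
lemma s_even (a : ℤ) (k : ℕ) (hk : 1 ≤ k) : s a (2 * k) = 2 * s a k + 2 := by
  obtain ⟨m, rfl⟩ : ∃ m, k = m + 1 := ⟨k - 1, by omega⟩
  have h1 : 2 * (m + 1) = 2 * m + 2 := by ring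
  rw [h1, s]
  have h2 : (2 * m + 2) % 2 = 0 := by omega
  have h3 : (2 * m + 2) / 2 = m + 1 := by omega
  rw [if_pos h2, h3]

/-- the third equation of the recursion -/
lemma s_odd (a : ℤ) (k : ℕ) (hk : 1 ≤ k) : s a (2 * k + 1) = 3 * s a k + 3 := by
  obtain ⟨m, rfl⟩ : ∃ m, k = m + 1 := ⟨k - 1, by omega⟩
  have h1 : 2 * (m + 1) + 1 = (2 * m + 1) + 2 := by ring
  rw [h1, s]
  have h2 : ¬ (2 * m + 1 + 2) % 2 = 0 := by omega
  have h3 : (2 * m + 1 + 2) / 2 = m + 1 := by omega
  rw [if_neg h2, h3]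

/-- There are integers `a < -3` and there are integers `a > 2` for which `s_a` takes the same value
at two different positive integers (`s_{-4} (51) = s_{-4} (128) = -258` and
`s_3 (2043) = s_3 (21504) = 177150`); so the assertion of the question is false. -/
theorem result :
    (∃ a : ℤ, a < -3 ∧ ∃ m n : ℕ, 1 ≤ m ∧ 1 ≤ n ∧ m ≠ n ∧ s a m = s a n) ∧
    (∃ a : ℤ, 2 < a ∧ ∃ m n : ℕ, 1 ≤ m ∧ 1 ≤ n ∧ m ≠ n ∧ s a m = s a n) := by
  refine ⟨⟨-4, by norm_num, 51, 128, by norm_num, by norm_num, by norm_num, ?_⟩,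
    ⟨3, by norm_num, 2043, 21504, by norm_num, by norm_num, by norm_num, ?_⟩⟩
  · simp [s]
  · simp [s]

end Pool.Agent.Results.MP_6850eb_nt.NotInjective
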